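import Pool.Agent.H98.OCV.Stmts
import Pool.Agent.H6.OCM.NFVd

/-!
# OCV: row NFR

The rows are often not full, in all coordinates: `OCM.NFVStmt` for the family of contexts, with the
visible part of the context as a part of the time.
-/

set_option autoImplicit false

namespace Pool.OCV

open Finset Real
open Pool.Agent.H49.Ent Pool.Agent.H32.Dense Pool.STK Pool.KAF
open Pool.OCM

/-- The data without the lines: every sample is its own line, the visible part of the context is a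
part of the time. -/
def dum {c : ℕ} (d : Dat c) : DatV c where
  Om := d.Om
  Lam := d.Om
  Tau := d.Vt × d.Tau
  P := d.P
  L := fun ω => ω
  T := fun ω => (d.vis ω, d.T ω)
  y := fun _ => 0
  om := fun _ => 0
  be := fun _ _ => 0
  N := d.N
  th := fun _ => 0
  S := fun _ _ => 0
  X := d.X

/-- **NFR.** -/
theorem nfr_thm (c : ℕ) : NFRStmt c := by
  intro c₀ hc₀
  obtain ⟨u, hu, hu1, h⟩ := nfv_thm c c₀ hc₀
  refine ⟨u, hu, hu1, fun D => ?_⟩
  obtain ⟨K, h⟩ := h D
  refine ⟨K, fun k m κ π₁ hm hκ hκ1 hπ => ?_⟩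
  obtain ⟨π₀, X₀, hπ₀, h⟩ := h 0 k m κ π₁ hm hκ hκ1 hπ
  refine ⟨π₀, X₀, hπ₀, fun d kmax hlaw hX hk h5 Ω ξ₁ _ Q w₁ x₁ M hQ hw hx hM => ?_⟩
  refine h (dum d) kmax ?_ hX hk h5 Ω ξ₁ Q w₁ x₁ M hQ hw hx hM
  refine ⟨hlaw, ?_, ?_, ?_, ?_, ?_, ?_, ?_⟩
  · intro ω _
    simp [DatV.yR, dum]
  · intro ω _
    simp [DatV.omR, dum]
  · intro ω _ i
    simp [DatV.beR, dum]
  · intro ω ω' _ _ he
    have : ω = ω' := congrArg Prod.fst he
    rw [this]
  · intro t
    simp [dum]
  · intro t i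
    simp [dum]
  · intro ω ω' _ _ he i
    have he' : ω = ω' := he
    subst he'
    simp [DatV.ZR, dum]

end Pool.OCV
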